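import Pool.Agent.T2h83.GD.Ex2

/-!
# Cunningham chains of the second kind of exact length two with a shift: almost all shifts in the residue classes of
# every odd modulus up to `N ^ (5 / 6 - ρ)`

The chains of the second kind are generated by the map `n ↦ 2 n - 1`. We replace it by the map `g s n = 2 n - 1 + s`
with an even shift `s` which runs through a residue class `a` of a modulus `q`, where `q` can be as large as the power
`5 / 6 - ρ` of the range of `p`; the problem itself is `s = 0`, and the class `a = 0` is always admitted. The chains of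
exact length `2` are the chains `p, g s p, g s (g s p)` in which the first two numbers are primes and the third one is
not.

For `1 ≤ u ≤ 3` let `F(u) = log u + ∫_1^(u/2) log ((u - s) / s) ds / s` (the integral is absent for `u ≤ 2`).
Let `2 / 3 ≤ θ ≤ 5 / 6` and `F = F (θ / (2 - 2 θ))`, so that `0 ≤ F ≤ 0.965`. For every modulus `q ≤ N ^ (θ - ρ)` which
is the product of a number `q₁ ≤ (log N) ^ T` and of an odd number `q₂`, and for every residue class `a` with
`gcd(a - 1, q) ≤ (log N) ^ T`, all but at most `N / (q (log N) ^ A)` of the even shifts `2 ≤ s ≤ N`, `s ≡ a (mod q)`, have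
the following property: every window `(u, v] ⊆ (0, N]` of length at least `N / (log N) ^ A` contains between
`1 - F² - ε` times and `1 + F + ε` times the predicted number of the primes `p` which start a chain of exact length `2`.
Hence for each odd modulus `q` and each class `a` modulo `q` with `gcd(a - 1, q) ≤ (log q) ^ T` there are an even shift
`s ≥ 2`, `s ≡ a (mod q)`, and a chain of exact length `2` for the map `g s` whose three numbers are at most
`q ^ (6 / 5 + ε)`.

The proof (projects GT and GD, `T2h83/GT`, `T2h83/GD`) compares the primes with the sieve function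
`1_{no prime factor ≤ N ^ (1 - θ)}(n) * Σ_{d ∣ n, d > N ^ (1 - θ / 2)} Λ(d)`, which is at least `Λ`, whose mean value is
`1 + F`, and which is well distributed in the arithmetic progressions of the moduli `q r`, `r` small. The chains of
length three are bounded with the sieve of dimension three.
-/

set_option autoImplicit false

namespace Pool.Agent.Results.MP_39b545_nt.ExactLengthTwoEveryModulus

open Finset
open Pool.Agent.H560R3.GB (sing)

/-- the shifted map -/
def g (s n : ℕ) : ℕ := 2 * n - 1 + s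

/-- the number of the primes `p` with `u < p ≤ v` which start a chain of exact length `2` for the map `g s` -/
def exact2 (s u v : ℕ) : ℕ :=
  ((Ioc u v).filter (fun p => p.Prime ∧ (g s p).Prime ∧ ¬ (g s (g s p)).Prime)).card

/-- Every window `(u, v] ⊆ (0, N]` of length at least `N / (log N) ^ A` contains between `lo` times and `hi` times
`𝔖(s - 1) (v - u) / (log N)²` primes which start a chain of exact length `2` for the map `g s`. -/
def Good (A : ℕ) (lo hi : ℝ) (N s : ℕ) : Prop :=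
  ∀ u v : ℕ, v ≤ N → (N : ℝ) / Real.log N ^ A ≤ (v : ℝ) - u →
    lo * (sing (s - 1) * ((v : ℝ) - u) / Real.log N ^ 2) ≤ (exact2 s u v : ℝ) ∧
    (exact2 s u v : ℝ) ≤ hi * (sing (s - 1) * ((v : ℝ) - u) / Real.log N ^ 2)

open Classical in
/-- the even `2 ≤ s ≤ N` with `s ≡ a (mod q)` which are not good -/
noncomputable def bad (A : ℕ) (lo hi : ℝ) (N q : ℕ) (a : ℤ) : Finset ℕ :=
  (Icc 2 N).filter (fun s : ℕ => Even s ∧ (s : ℤ) ≡ a [ZMOD q] ∧ ¬ Good A lo hi N s)

/-- the function `F(u) = log u + ∫_1^(u/2) log ((u - s) / s) ds / s` -/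
noncomputable def F (u : ℝ) : ℝ := Real.log u + ∫ s in (1 : ℝ)..max 1 (u / 2), Real.log ((u - s) / s) / s

lemma exact2_eq (s u v : ℕ) (hs : 1 ≤ s) : exact2 s u v = Pool.Agent.T2h83.GD.cntE (s - 1) u v := by
  unfold exact2 Pool.Agent.T2h83.GD.cntE
  congr 1
  ext p
  rw [mem_filter, mem_filter]
  refine and_congr_right fun hp => and_congr_right fun hpp => ?_
  have hp1 := hpp.two_le
  have e1 : g s p = 2 * p + (s - 1) := by
    unfold g
    omega
  have e2 : g s (g s p) = 4 * p + 3 * (s - 1) := by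
    rw [e1]
    unfold g
    omega
  rw [e2, e1]

/-- Let `2 / 3 ≤ θ ≤ 5 / 6` and `F = F (θ / (2 - 2 θ))`. Then `0 ≤ F ≤ 0.965`, and for all `ε, ρ > 0` and all `A, T`,
for all large `N`, every modulus `q = q₁ q₂ ≤ N ^ (θ - ρ)` with `q₁ ≤ (log N) ^ T` and `q₂` odd, and every class `a` with
`gcd(a - 1, q) ≤ (log N) ^ T`, all but at most `N / (q (log N) ^ A)` of the even `2 ≤ s ≤ N`, `s ≡ a (mod q)`, are good
with the constants `1 - F² - ε` and `1 + F + ε`. For all large odd `q` and each class `a` with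
`gcd(a - 1, q) ≤ (log q) ^ T` there are an even `s ≥ 2`, `s ≡ a (mod q)`, and a prime `p` which starts a chain of exact
length `2` for the map `g s` with `g s (g s p) ≤ q ^ (6 / 5 + ε)`. -/
theorem result :
    (∀ θ : ℝ, 2 / 3 ≤ θ → θ ≤ 5 / 6 →
      (0 ≤ F (θ / (2 - 2 * θ)) ∧ F (θ / (2 - 2 * θ)) ≤ 0.965) ∧
      ∀ ε : ℝ, 0 < ε → ∀ ρ : ℝ, 0 < ρ → ∀ A T : ℕ, ∃ N₀ : ℕ, ∀ N : ℕ, N₀ ≤ N → ∀ q₁ q₂ : ℕ, 1 ≤ q₁ →
        (q₁ : ℝ) ≤ Real.log N ^ T → Odd q₂ → ((q₁ * q₂ : ℕ) : ℝ) ≤ (N : ℝ) ^ (θ - ρ) →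
        ∀ a : ℤ, (Int.gcd (a - 1) (q₁ * q₂ : ℕ) : ℝ) ≤ Real.log N ^ T →
          ((bad A (1 - F (θ / (2 - 2 * θ)) ^ 2 - ε) (1 + F (θ / (2 - 2 * θ)) + ε) N (q₁ * q₂) a).card : ℝ) ≤
            N / ((q₁ * q₂ : ℕ) * Real.log N ^ A)) ∧
    (∀ ε : ℝ, 0 < ε → ∀ T : ℕ, ∃ q₀ : ℕ, ∀ q : ℕ, q₀ ≤ q → Odd q →
      ∀ a : ℤ, (Int.gcd (a - 1) q : ℝ) ≤ Real.log q ^ T →
      ∃ s p : ℕ, 2 ≤ s ∧ Even s ∧ (s : ℤ) ≡ a [ZMOD q] ∧ p.Prime ∧ (g s p).Prime ∧ ¬ (g s (g s p)).Prime ∧
        (g s (g s p) : ℝ) ≤ (q : ℝ) ^ (6 / 5 + ε)) := by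
  classical
  refine ⟨fun θ hθ0 hθ1 => ?_, fun ε hε T => ?_⟩
  · have hFU : ∀ u, F u = Pool.Agent.T2h83.GT.FU u := fun u => rfl
    obtain ⟨hb0, hb1⟩ := Pool.Agent.T2h83.GT.FU_bd hθ0 hθ1
    rw [hFU]
    refine ⟨⟨hb0, by linarith⟩, fun ε hε ρ hρ A T => ?_⟩
    obtain ⟨G, hG⟩ : ∃ G, G = Pool.Agent.T2h83.GT.FU (θ / (2 - 2 * θ)) := ⟨_, rfl⟩
    obtain ⟨N₀, h1⟩ := Pool.Agent.T2h83.GD.ex2_all ε hε hθ0 hθ1 ρ hρ A T
    rw [← hG] at h1 ⊢
    refine ⟨N₀, fun N hN q₁ q₂ hq₁ hq₁T hq₂ hqN a ha => ?_⟩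
    refine le_trans ?_ (h1 N hN q₁ q₂ hq₁ hq₁T hq₂ hqN (a - 1) ha)
    have h3 : (bad A (1 - G ^ 2 - ε) (1 + G + ε) N (q₁ * q₂) a).card ≤
        (Pool.Agent.T2h83.GD.badE A (1 - G ^ 2 - ε) (1 + G + ε) N (q₁ * q₂) (a - 1)).card := by
      refine card_le_card_of_injOn (fun s => s - 1) ?_ ?_
      · intro s hs
        rw [mem_coe] at hs
        unfold bad at hs
        rw [mem_filter, mem_Icc] at hs
        obtain ⟨⟨b0, b1⟩, b2, b3, b4⟩ := hs
        rw [mem_coe]
        unfold Pool.Agent.T2h83.GD.badE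
        rw [mem_filter, mem_Icc]
        show (1 ≤ s - 1 ∧ s - 1 ≤ N) ∧ Odd (s - 1) ∧ ((s - 1 : ℕ) : ℤ) ≡ a - 1 [ZMOD ((q₁ * q₂ : ℕ) : ℤ)] ∧
          ¬ Pool.Agent.T2h83.GD.GoodE A (1 - G ^ 2 - ε) (1 + G + ε) N (s - 1)
        refine ⟨⟨by omega, by omega⟩, ?_, ?_, fun hgood => b4 ?_⟩
        · have := Nat.even_iff.1 b2
          rw [Nat.odd_iff]
          omega
        · rw [Nat.cast_sub (by omega), Nat.cast_one]
          exact b3.sub_right 1
        · intro u v hv huv
          rw [exact2_eq s u v (by omega)]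
          exact hgood u v hv huv
      · intro s hs t ht hst
        rw [mem_coe] at hs ht
        unfold bad at hs ht
        rw [mem_filter, mem_Icc] at hs ht
        have := hs.1.1
        have := ht.1.1
        simp only at hst
        omega
    exact_mod_cast h3
  · obtain ⟨q₀, h1⟩ := Pool.Agent.T2h83.GD.ex2_least ε hε T
    refine ⟨q₀, fun q hq hodd a ha => ?_⟩
    obtain ⟨h, p, k1, k2, k3, k4, k5, -, k6⟩ := h1 q hq hodd (a - 1) ha
    have hp2 := k3.two_le
    have hh := k1.pos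
    have e1 : g (h + 1) p = 2 * p + h := by
      unfold g
      omega
    have e2 : g (h + 1) (g (h + 1) p) = 4 * p + 3 * h := by
      rw [e1]
      unfold g
      omega
    refine ⟨h + 1, p, by omega, k1.add_one, ?_, k3, by rw [e1]; exact k4, by rw [e2]; exact k5,
      by rw [e2]; exact k6⟩
    have := k2.add_right 1
    push_cast
    simpa using this

end Pool.Agent.Results.MP_39b545_nt.ExactLengthTwoEveryModulus
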