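import Mathlib
import Pool.Agent.T2h83.TH.QVec

/-!
# Cunningham chains of the second kind of exact length `K`, shifted by the elements of thin sets

For almost all moduli `q` and for EVERY choice of sets `S 1, ..., S K` of shifts, each in one residue class modulo `q` and with,
up to a power of `log N`, not more additive energy (of some order `t`) than the class, almost all the vectors of shifts in
`S 1 × ... × S K` satisfy the conjecture on the number of the primes `p ≤ N` for which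
`c 1 p + s 1, ..., c (K - 1) p + s (K - 1)` are primes and `c K p + s K` is not, where `c i p = 2 ^ i (p - 1) + 1`. The sets can
have as few as `(N / q) ^ (1 / t)` elements. For instance they can be the sets of the values of quadratic polynomials at the
elements of residue classes modulo `q`, for `q` up to `N ^ (1 / 4)`.

Method: Parseval and Hoelder with the moment of order `2 t` of the exponential sum of the set, whose absolute value has the
period `1 / q`, and the bound of project AM for the mean square of the exponential sum of `Λ` minus a sieve model over the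
translates by the multiples of `1 / q`; for the quadratic polynomials the mean value of Vinogradov for three variables.
-/

set_option autoImplicit false

namespace Pool.Agent.Results.MP_39b545_nt.ThinSetsOfShifts

open Finset Filter

/-- the `i`-th term of the chain of the second kind which starts with `n ≥ 1` -/
def c (i n : ℕ) : ℕ := 2 ^ i * (n - 1) + 1

/-- The shift of the term `c (i + 1)` is `s i`. No prime divides the product of `n` and of the `c (i + 1) n + s i`,
`i + 1 < K`, for all `n`. -/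
def Admissible (K : ℕ) (s : Fin K → ℕ) : Prop :=
  ∀ l : ℕ, l.Prime → ∃ n : ℕ, ¬ l ∣ n ∧ ∀ i : Fin K, (i : ℕ) + 1 < K → ¬ l ∣ c (i + 1) n + s i

/-- the number of the classes `n` modulo `l` in which this product is divisible by `l` -/
def nu (K : ℕ) (s : Fin K → ℕ) (l : ℕ) : ℕ :=
  ((range l).filter (fun n => l ∣ n ∨ ∃ i : Fin K, (i : ℕ) + 1 < K ∧ l ∣ c (i + 1) n + s i)).card

/-- the product over the primes `l ≤ z` of `(1 - nu / l) / (1 - 1 / l) ^ K` -/
noncomputable def singular (K : ℕ) (s : Fin K → ℕ) (z : ℕ) : ℝ :=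
  ∏ l ∈ (Icc 1 z).filter Nat.Prime, (1 - (nu K s l : ℝ) / l) / (1 - 1 / (l : ℝ)) ^ K

/-- the number of the primes `p ≤ N` for which `c (i + 1) p + s i`, `i < K`, is prime if `i + 1 < K` and not prime if
`i + 1 = K`: shifted chains of exact length `K` -/
def exact (K : ℕ) (s : Fin K → ℕ) (N : ℕ) : ℕ :=
  ((Icc 1 N).filter (fun p : ℕ => p.Prime ∧ ∀ i : Fin K, ((c (i + 1) p + s i).Prime ↔ (i : ℕ) + 1 < K))).card

/-- The asymptotic formula for the number of the shifted chains of exact length `K`, up to the factors `1 ± ε`, with the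
singular series `S ≥ κ`, if the system is admissible -/
def Predicted (K : ℕ) (κ ε : ℝ) (N : ℕ) (s : Fin K → ℕ) : Prop :=
  Admissible K s → ∃ S : ℝ, κ ≤ S ∧ Tendsto (singular K s) atTop (nhds S) ∧
    |(exact K s N : ℝ) - S * N / Real.log N ^ K| ≤ ε * (S * N / Real.log N ^ K)

lemma c_eq (i n t : ℕ) (hn : 1 ≤ n) (ht : 2 ^ i ≤ t + 1) : c i n + t = 2 ^ i * n + (t + 1 - 2 ^ i) := by
  unfold c
  obtain ⟨m, rfl⟩ : ∃ m, n = m + 1 := ⟨n - 1, by omega⟩
  rw [Nat.add_sub_cancel, Nat.mul_add, Nat.mul_one]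
  omega

lemma adm_of_dvd (K : ℕ) (hK : 1 ≤ K) (s : Fin K → ℕ) (hs : ∀ i, K.factorial ∣ s i) : Admissible K s := by
  obtain ⟨k, rfl⟩ : ∃ k, K = k + 1 := ⟨K - 1, by omega⟩
  intro l hl
  by_cases h : l ≤ k + 1
  · refine ⟨1, fun hd => hl.one_lt.ne' (Nat.dvd_one.1 hd), ?_⟩
    intro i _ hd
    have h1 : l ∣ s i := (hl.dvd_factorial.2 h).trans (hs i)
    have h2 : l ∣ c (i + 1) 1 := (Nat.dvd_add_left h1).1 hd
    unfold c at h2
    simp only [Nat.sub_self, Nat.mul_zero, Nat.zero_add] at h2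
    exact hl.one_lt.ne' (Nat.dvd_one.1 h2)
  · have h1 := Pool.Agent.T2h83.AM.nuL_le (k := k) (fun i => 2 ^ ((i : ℕ) + 1))
      (fun i => s i.castSucc + 1 + (l - 1) * 2 ^ ((i : ℕ) + 1)) l hl
      (by
        rintro i ⟨h2, -⟩
        have h3 := hl.dvd_of_dvd_pow h2
        have h4 := Nat.le_of_dvd (by norm_num) h3
        have := i.isLt
        omega)
    by_contra hcon
    push Not at hcon
    have h2 : Pool.Agent.T2h83.AM.nuL (k := k) (fun i => 2 ^ ((i : ℕ) + 1))
        (fun i => s i.castSucc + 1 + (l - 1) * 2 ^ ((i : ℕ) + 1)) l = l := by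
      unfold Pool.Agent.T2h83.AM.nuL
      rw [filter_true_of_mem, card_range]
      intro n _
      by_cases h3 : l ∣ n
      · exact Or.inl h3
      · obtain ⟨i, hi1, hi2⟩ := hcon n h3
        right
        have hik : (i : ℕ) < k := by omega
        refine ⟨⟨i, hik⟩, ?_⟩
        have hn : 1 ≤ n := Nat.pos_of_ne_zero (fun h => h3 (h ▸ dvd_zero _))
        have e1 : 2 ^ ((i : ℕ) + 1) * n + (s i + 1 + (l - 1) * 2 ^ ((i : ℕ) + 1)) =
            (c (i + 1) n + s i) + l * 2 ^ ((i : ℕ) + 1) := by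
          unfold c
          obtain ⟨m, rfl⟩ : ∃ m, n = m + 1 := ⟨n - 1, by omega⟩
          obtain ⟨l', rfl⟩ : ∃ l', l = l' + 1 := ⟨l - 1, by have := hl.pos; omega⟩
          rw [Nat.add_sub_cancel, Nat.add_sub_cancel]
          ring
        have e2 : l ∣ 2 ^ ((i : ℕ) + 1) * n + (s i + 1 + (l - 1) * 2 ^ ((i : ℕ) + 1)) := by
          rw [e1]
          exact dvd_add hi2 (Nat.dvd_mul_right _ _)
        exact e2
    rw [h2] at h1
    omega

/-- the number of the pairs of `t`-tuples of elements of `S` with the same sum -/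
def energy (t : ℕ) (S : Finset ℕ) : ℕ :=
  (((Fintype.piFinset (fun _ : Fin t => S)) ×ˢ (Fintype.piFinset (fun _ : Fin t => S))).filter
    (fun x => ∑ i, x.1 i = ∑ i, x.2 i)).card

/-- `S` is a set of numbers between `2 ^ K` and `N` in one residue class modulo `q` and the number `energy t S` is at most
`(log N) ^ T` times `|S| ^ (2 t) q / N` -/
def ThinSet (K t T N q : ℕ) (S : Finset ℕ) : Prop :=
  (∀ s ∈ S, 2 ^ K ≤ s ∧ s ≤ N) ∧ (∃ r : ℕ, ∀ s ∈ S, s % q = r % q) ∧
    (energy t S : ℝ) ≤ (S.card : ℝ) ^ (2 * t) * q * Real.log N ^ T / N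

open Pool.Agent.T2h83.AM in
lemma predicted_of {k N : ℕ} {κ ε : ℝ} {s : Fin (k + 1) → ℕ} (hsge : ∀ i : Fin (k + 1), 2 ^ ((i : ℕ) + 1) ≤ s i + 1)
    (h4 : GoodX ε κ N (fun i : Fin (k + 1) => 2 ^ ((i : ℕ) + 1)) (fun i => s i + 1 - 2 ^ ((i : ℕ) + 1))) :
    Predicted (k + 1) κ ε N s := by
  intro hadm
  have hform : ∀ (i : Fin (k + 1)) (n : ℕ), 1 ≤ n → 2 ^ ((i : ℕ) + 1) * n + (s i + 1 - 2 ^ ((i : ℕ) + 1)) = c (i + 1) n + s i :=
    fun i n hn => (c_eq _ _ _ hn (hsge i)).symm
  obtain ⟨S, g1, g2, g3, g4⟩ := h4 (by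
    intro l hl
    obtain ⟨n, h5, h6⟩ := hadm l hl
    have hn : 1 ≤ n := Nat.pos_of_ne_zero (fun h => h5 (h ▸ dvd_zero _))
    refine ⟨n, h5, fun i => ?_⟩
    have h7 := h6 i.castSucc (by simp)
    have h8 := hform i.castSucc n hn
    simp only [Fin.val_castSucc] at h7 h8
    rw [← h8] at h7
    exact h7)
  refine ⟨S, g1, ?_, ?_⟩
  · refine g2.congr fun z => ?_
    unfold Pool.Agent.T2h83.AM.sgL singular Pool.Agent.T2h83.AM.FpL Pool.Agent.H373R2.T7.pz
    refine prod_congr rfl fun l _ => ?_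
    have : Pool.Agent.T2h83.AM.nuL (Pool.Agent.T2h83.AM.ini (fun i : Fin (k + 1) => 2 ^ ((i : ℕ) + 1)))
        (Pool.Agent.T2h83.AM.ini (fun i : Fin (k + 1) => s i + 1 - 2 ^ ((i : ℕ) + 1))) l = nu (k + 1) s l := by
      unfold Pool.Agent.T2h83.AM.nuL nu
      congr 1
      ext n
      rw [mem_filter, mem_filter]
      refine and_congr_right fun _ => ?_
      rcases Nat.eq_zero_or_pos n with hn | hn
      · subst hn
        simp
      refine or_congr_right ?_
      constructor
      · rintro ⟨i, hi⟩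
        refine ⟨i.castSucc, by simp, ?_⟩
        rw [← hform _ _ hn]
        exact hi
      · rintro ⟨i, hi1, hi2⟩
        refine ⟨⟨i, by omega⟩, ?_⟩
        rw [← hform _ _ hn] at hi2
        exact hi2
    rw [this]
  · have : Pool.Agent.T2h83.AM.cntX (fun i : Fin (k + 1) => 2 ^ ((i : ℕ) + 1))
        (fun i => s i + 1 - 2 ^ ((i : ℕ) + 1)) N = exact (k + 1) s N := by
      unfold Pool.Agent.T2h83.AM.cntX exact
      congr 1
      ext p
      rw [mem_filter, mem_filter]
      refine and_congr_right fun hp => and_congr_right fun _ => ?_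
      rw [mem_Icc] at hp
      have hform' : ∀ i : Fin (k + 1), 2 ^ ((i : ℕ) + 1) * p + (s i + 1 - 2 ^ ((i : ℕ) + 1)) = c (i + 1) p + s i :=
        fun i => hform i p hp.1
      simp only [hform']
      constructor
      · rintro ⟨h5, h6⟩ i
        induction i using Fin.lastCases with
        | last => simpa using h6
        | cast i => simpa using h5 i
      · intro h5
        refine ⟨fun i => ?_, ?_⟩
        · exact (h5 i.castSucc).2 (by simp)
        · have := (h5 (Fin.last k)).not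
          rw [this]
          simp
    rw [this] at g4
    exact g4


open Classical in
/-- For every `K ≥ 1` there is a constant `κ > 0` such that for all `A`, `T` and `ε > 0` the following holds.

(1) For every `t ≥ 1` there are `B` and `N₀` such that for all `N ≥ N₀` and all integers `Q` with `Q log ^ B N ≤ N`, for all `q` in
`(Q, 2 Q]`, except for at most `Q / log ^ A N` of them, and for ALL sets `S 0, ..., S (K - 1)` with `ThinSet K t T N q (S i)`,
except for the proportion `1 / log ^ A N` all the vectors `s` with `s i ∈ S i` satisfy: if `s` is admissible, then the number of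
the shifted chains `p, c 1 p + s 0, ..., c (K - 1) p + s (K - 2)` of primes of exact length `K` (`c K p + s (K - 1)` is not
prime) with `p ≤ N` lies between `(1 - ε) S N / log ^ K N` and `(1 + ε) S N / log ^ K N`, where the singular series `S` is at
least `κ`.

(2) There are `B` and `N₀` such that the same is true for the vectors of the values `a i k ^ 2 + b i k + c i` in `[2 ^ K, N]` at
`k = ρ i + q v i`, `0 ≤ v i < V i` (the vectors `v` are counted), uniformly in the polynomials, in `ρ` and in `V`, if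
`a i, V i ≥ 1`, `N ≤ (q V i) ^ 2 log ^ T N`, `q ≤ V i log ^ T N` and `gcd (2 a i ρ i + b i, q) ≤ log ^ T N`.

All the vectors of multiples of `K !` are admissible. -/
theorem result (K : ℕ) (hK : 1 ≤ K) :
    (∃ κ : ℝ, 0 < κ ∧ ∀ (A T : ℕ) (ε : ℝ), 0 < ε →
      (∀ t : ℕ, 1 ≤ t → ∃ B N₀ : ℕ, ∀ N : ℕ, N₀ ≤ N → ∀ Q : ℕ, (Q : ℝ) * Real.log N ^ B ≤ N →
        ∃ E : Finset ℕ, (E.card : ℝ) ≤ Q / Real.log N ^ A ∧ ∀ q ∈ Ioc Q (2 * Q), q ∉ E →
          ∀ S : Fin K → Finset ℕ, (∀ i, ThinSet K t T N q (S i)) →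
            (((Fintype.piFinset S).filter (fun s => ¬ Predicted K κ ε N s)).card : ℝ) ≤
              (∏ i, ((S i).card : ℝ)) / Real.log N ^ A) ∧
      (∃ B N₀ : ℕ, ∀ N : ℕ, N₀ ≤ N → ∀ Q : ℕ, (Q : ℝ) * Real.log N ^ B ≤ N →
        ∃ E : Finset ℕ, (E.card : ℝ) ≤ Q / Real.log N ^ A ∧ ∀ q ∈ Ioc Q (2 * Q), q ∉ E →
          ∀ a b c ρ V : Fin K → ℕ, (∀ i, 1 ≤ a i) → (∀ i, 1 ≤ V i) →
            (∀ i, ∀ v < V i, 2 ^ K ≤ a i * (ρ i + q * v) ^ 2 + b i * (ρ i + q * v) + c i ∧
              a i * (ρ i + q * v) ^ 2 + b i * (ρ i + q * v) + c i ≤ N) →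
            (∀ i, (N : ℝ) ≤ (q * V i : ℝ) ^ 2 * Real.log N ^ T) → (∀ i, (q : ℝ) ≤ V i * Real.log N ^ T) →
            (∀ i, (Nat.gcd (2 * a i * ρ i + b i) q : ℝ) ≤ Real.log N ^ T) →
            (((Fintype.piFinset (fun i => range (V i))).filter (fun v => ¬ Predicted K κ ε N
              (fun i => a i * (ρ i + q * v i) ^ 2 + b i * (ρ i + q * v i) + c i))).card : ℝ) ≤
              (∏ i, (V i : ℝ)) / Real.log N ^ A)) ∧
    ∀ s : Fin K → ℕ, (∀ i, K.factorial ∣ s i) → Admissible K s := by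
  refine ⟨?_, adm_of_dvd K hK⟩
  obtain ⟨k, rfl⟩ : ∃ k, K = k + 1 := ⟨K - 1, by omega⟩
  obtain ⟨κ, hκ, hmain⟩ := Pool.Agent.T2h83.TH.thin_exact (k := k) (fun i => 2 ^ ((i : ℕ) + 1))
    (fun i => Nat.one_le_two_pow)
  refine ⟨κ, hκ, fun A T ε hε => ?_⟩
  have key : ∀ t T : ℕ, 1 ≤ t → ∃ B N₀ : ℕ, ∀ N : ℕ, N₀ ≤ N → ∀ Q : ℕ, (Q : ℝ) * Real.log N ^ B ≤ N →
        ∃ E : Finset ℕ, (E.card : ℝ) ≤ Q / Real.log N ^ A ∧ ∀ q ∈ Ioc Q (2 * Q), q ∉ E →
          ∀ S : Fin (k + 1) → Finset ℕ, (∀ i, ThinSet (k + 1) t T N q (S i)) →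
            (((Fintype.piFinset S).filter (fun s => ¬ Predicted (k + 1) κ ε N s)).card : ℝ) ≤
              (∏ i, ((S i).card : ℝ)) / Real.log N ^ A := by
    intro t T ht
    obtain ⟨B, N₀, h1⟩ := hmain A t T ε ht hε
    refine ⟨B, N₀, fun N hN Q hQ => ?_⟩
    obtain ⟨E, hE1, hE2⟩ := h1 N hN Q hQ
    refine ⟨E, hE1, fun q hq hqE S hS => ?_⟩
    have hge : ∀ i, ∀ s ∈ S i, 2 ^ ((i : ℕ) + 1) ≤ s + 1 := by
      intro i s hs
      have e1 := ((hS i).1 s hs).1
      have e2 : 2 ^ ((i : ℕ) + 1) ≤ 2 ^ (k + 1) := Nat.pow_le_pow_right (by norm_num) (by have := i.isLt; omega)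
      omega
    have hT : ∀ i, Pool.Agent.T2h83.TH.Thin t T N q ((S i).image (fun s => s + 1 - 2 ^ ((i : ℕ) + 1))) := by
      intro i
      obtain ⟨hS1, hS2, hS3⟩ := hS i
      refine Pool.Agent.T2h83.TH.thin_sub _ (fun s hs => ⟨hge i s hs, ?_⟩) hS2 hS3
      have e1 := (hS1 s hs).2
      have e4 : 0 < 2 ^ ((i : ℕ) + 1) := by positivity
      omega
    have h2 := hE2 q hq hqE (fun i => (S i).image (fun s => s + 1 - 2 ^ ((i : ℕ) + 1))) hT
    have hci : ∀ i, ((S i).image (fun s => s + 1 - 2 ^ ((i : ℕ) + 1))).card = (S i).card :=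
      fun i => Pool.Agent.T2h83.TH.card_image_sub (S i) _ (hge i)
    simp only [hci] at h2
    refine le_trans ?_ h2
    have h3 : ((Fintype.piFinset S).filter (fun s => ¬ Predicted (k + 1) κ ε N s)).card ≤
        ((Fintype.piFinset (fun i => (S i).image (fun s => s + 1 - 2 ^ ((i : ℕ) + 1)))).filter
          (fun h => ¬ Pool.Agent.T2h83.AM.GoodX ε κ N (fun i : Fin (k + 1) => 2 ^ ((i : ℕ) + 1)) h)).card := by
      apply card_le_card_of_injOn (fun (s : Fin (k + 1) → ℕ) (i : Fin (k + 1)) => s i + 1 - 2 ^ ((i : ℕ) + 1))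
      · intro s hs
        rw [mem_coe, mem_filter, Fintype.mem_piFinset] at hs
        rw [mem_coe, mem_filter, Fintype.mem_piFinset]
        refine ⟨fun i => mem_image.2 ⟨s i, hs.1 i, rfl⟩, fun hcon => hs.2 ?_⟩
        exact predicted_of (fun i => hge i _ (hs.1 i)) hcon
      · intro s hs s' hs' h
        rw [mem_coe, mem_filter, Fintype.mem_piFinset] at hs hs'
        funext i
        have e1 := congrFun h i
        have e2 := hge i _ (hs.1 i)
        have e3 := hge i _ (hs'.1 i)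
        simp only at e1
        omega
    exact_mod_cast h3
  refine ⟨fun t ht => key t T ht, ?_⟩
  obtain ⟨B, N₀, h1⟩ := key 3 (2 * T + 10) (by norm_num)
  obtain ⟨N₁, h2⟩ := Pool.Agent.T2h83.TH.quad_vec T
  refine ⟨B, N₀ + N₁, fun N hN Q hQ => ?_⟩
  obtain ⟨E, hE1, hE2⟩ := h1 N (by omega) Q hQ
  refine ⟨E, hE1, fun q hq hqE a b c ρ V ha hV hle hNV hqV hg => ?_⟩
  have hq1 : 1 ≤ q := by rw [mem_Ioc] at hq; omega
  exact h2 N (by omega) (k + 1) q (2 ^ (k + 1)) 0 (Real.log N ^ A) (Predicted (k + 1) κ ε N) hq1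
    (fun S hS => hE2 q hq hqE S hS) a b c ρ V ha hV hle hNV hqV hg

end Pool.Agent.Results.MP_39b545_nt.ThinSetsOfShifts
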